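import Pool.Agent.Y779.CBQ.Tr

/-!
# The closeness of minimal cutsets is a quasi-isometry invariant, scale by scale, with optimal
linear control

For arbitrary connected locally finite graphs (in particular for Cayley graphs of finitely generated
groups) we bound the constant `C_Γ'` (every minimal cutset of `Γ'` is `C_Γ'`-close), and the same
constant for the minimal cutsets of bounded diameter only, by `L C_Γ + K` if `Γ'` is
quasi-isometric to `Γ` with constants `(L, C)`, where `K = 2 L² (1 + 3 C) + 3 C + 2`.  The factor `L`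
is optimal, already for Cayley graphs of finite cyclic groups.
-/

set_option autoImplicit false

open SimpleGraph

namespace Pool.Agent.Results.MP_40378c_al.LinearControl

open Pool.Agent.Y779.CBQ
open Pool.Agent.Results.MP_40378c_al.QIInvariance (Co RC bd ob first_exit crossing comp comp_sub
  comp_co comp_compl_co comp_edge comp_step comp_self ray_lemma tail_avoid walk_cross CBfin cb_iff
  annulus dist_adj cayley_connected cayley_lf cayley_change ball_finite dist_map_le)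

universe u v

variable {V : Type u} {V' : Type v}

/-! ## Definitions -/

/-- A ray: an injective sequence of vertices with consecutive ones adjacent. -/
def IsRay (Γ : SimpleGraph V) (ρ : ℕ → V) : Prop :=
  Function.Injective ρ ∧ ∀ n, Γ.Adj (ρ n) (ρ (n + 1))

/-- The end of the ray `ρ` lies in the closure of the vertex set `F` in the end compactification:
for every finite vertex set `K` all late vertices of `ρ` are joined to vertices of `F` by walks
that avoid `K`. -/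
def InClosure (Γ : SimpleGraph V) (F : Set V) (ρ : ℕ → V) : Prop :=
  ∀ K : Set V, K.Finite → ∃ N : ℕ, ∀ m, N ≤ m →
    ∃ x ∈ F, ∃ p : Γ.Walk (ρ m) x, ∀ z ∈ p.support, z ∉ K

/-- The edges between `F` and its complement. -/
def cut (Γ : SimpleGraph V) (F : Set V) : Set (Sym2 V) :=
  {e | ∃ x ∈ F, ∃ y ∈ Fᶜ, Γ.Adj x y ∧ e = s(x, y)}

/-- `C` is a cutset: a set of edges whose removal disconnects the end compactification, that is,
the vertices can be divided into two nonempty sets such that all edges between them belong to `C`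
and no end lies in the closures of both. -/
def IsCutset (Γ : SimpleGraph V) (C : Set (Sym2 V)) : Prop :=
  C ⊆ Γ.edgeSet ∧ ∃ F : Set V, F.Nonempty ∧ Fᶜ.Nonempty ∧ cut Γ F ⊆ C ∧
    ¬ ∃ ρ : ℕ → V, IsRay Γ ρ ∧ InClosure Γ F ρ ∧ InClosure Γ Fᶜ ρ

/-- A minimal cutset: no proper subset is a cutset. -/
def IsMinCutset (Γ : SimpleGraph V) (C : Set (Sym2 V)) : Prop :=
  IsCutset Γ C ∧ ∀ C' : Set (Sym2 V), C' ⊂ C → ¬ IsCutset Γ C'

/-- `d(A₁, A₂) ≤ t` for two sets of edges. -/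
def DistLe (Γ : SimpleGraph V) (t : ℝ) (A₁ A₂ : Set (Sym2 V)) : Prop :=
  ∃ e₁ ∈ A₁, ∃ e₂ ∈ A₂, ∃ x ∈ e₁, ∃ y ∈ e₂, (Γ.dist x y : ℝ) ≤ t

/-- The set `C` of edges is `t`-close: `d(A₁, A₂) ≤ t` for every partition `C = A₁ ⊔ A₂` into two
nonempty parts. -/
def IsClose (Γ : SimpleGraph V) (t : ℝ) (C : Set (Sym2 V)) : Prop :=
  ∀ A₁ A₂ : Set (Sym2 V), A₁.Nonempty → A₂.Nonempty → Disjoint A₁ A₂ → A₁ ∪ A₂ = C →
    DistLe Γ t A₁ A₂

/-- The set `C` of edges has diameter at most `n`. -/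
def DiamLe (Γ : SimpleGraph V) (n : ℝ) (C : Set (Sym2 V)) : Prop :=
  ∀ e₁ ∈ C, ∀ e₂ ∈ C, ∀ x ∈ e₁, ∀ y ∈ e₂, (Γ.dist x y : ℝ) ≤ n

/-- `C_Γ ≤ t`: every minimal cutset is `t`-close. -/
def CutConstLe (Γ : SimpleGraph V) (t : ℝ) : Prop := ∀ C, IsMinCutset Γ C → IsClose Γ t C

/-- `C_Γ(n) ≤ t`: every minimal cutset of diameter at most `n` is `t`-close. -/
def CutProfileLe (Γ : SimpleGraph V) (n t : ℝ) : Prop :=
  ∀ C, IsMinCutset Γ C → DiamLe Γ n C → IsClose Γ t C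

/-- Every vertex has finitely many neighbours. -/
def LocFin (Γ : SimpleGraph V) : Prop := ∀ v, (Γ.neighborSet v).Finite

/-- `f` is a quasi-isometry between the vertex sets, with constants `L` and `C`. -/
def IsQI (Γ : SimpleGraph V) (Γ' : SimpleGraph V') (f : V → V') (L C : ℝ) : Prop :=
  (∀ x y, (Γ.dist x y : ℝ) / L - C ≤ (Γ'.dist (f x) (f y) : ℝ) ∧
      (Γ'.dist (f x) (f y) : ℝ) ≤ L * (Γ.dist x y : ℝ) + C) ∧
    ∀ w, ∃ x, (Γ'.dist w (f x) : ℝ) ≤ C

/-- The additive constant. -/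
noncomputable def addC (L C : ℝ) : ℝ := 2 * L ^ 2 * (1 + 3 * C) + 3 * C + 2

/-- `N_r(K)`: the vertices at distance at most `r` from `K`. -/
def nbhd (Γ : SimpleGraph V) (r : ℕ) (K : Set V) : Set V := {x | ∃ y ∈ K, Γ.dist x y ≤ r}

/-- Two rays belong to the same end. -/
def SameEnd (Γ : SimpleGraph V) (ρ σ : ℕ → V) : Prop :=
  ∀ K : Set V, K.Finite → ∃ N : ℕ, ∀ m, N ≤ m → ∀ n, N ≤ n →
    ∃ p : Γ.Walk (ρ m) (σ n), ∀ x ∈ p.support, x ∉ K

/-- `F` is c-connected. -/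
def CConnected (Γ : SimpleGraph V) (F : Set V) : Prop :=
  (Γ.induce F).Connected ∧ (Γ.induce Fᶜ).Connected ∧
    ¬ ∃ ρ σ : ℕ → V, IsRay Γ ρ ∧ IsRay Γ σ ∧ (∀ n, ρ n ∈ F) ∧ (∀ n, σ n ∈ Fᶜ) ∧ SameEnd Γ ρ σ

/-- `CB_r`: `N_{r+1}(F) \ F` is connected for every c-connected `F`. -/
def CB (Γ : SimpleGraph V) (r : ℕ) : Prop :=
  ∀ F : Set V, CConnected Γ F → (Γ.induce (nbhd Γ (r + 1) F \ F)).Connected

/-- The graph has connected boundaries: it has `CB_r` for some `r`. -/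
def HasCB (Γ : SimpleGraph V) : Prop := ∃ r : ℕ, CB Γ r

/-! ## Cuts and ordered pairs -/

theorem mem_cut {Γ : SimpleGraph V} {F : Set V} {x y : V} :
    s(x, y) ∈ cut Γ F ↔ (x, y) ∈ bd Γ F := by
  constructor
  · rintro ⟨a, ha, b, hb, hab, he⟩
    rw [Sym2.eq_iff] at he
    rcases he with ⟨rfl, rfl⟩ | ⟨rfl, rfl⟩
    · exact ⟨hab, fun h => hb (h.1 ha)⟩
    · exact ⟨hab.symm, fun h => hb (h.2 ha)⟩
  · rintro ⟨h1, h2⟩
    simp only at h1 h2
    by_cases hx : x ∈ F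
    · exact ⟨x, hx, y, fun hy => h2 ⟨fun _ => hy, fun _ => hx⟩, h1, rfl⟩
    · refine ⟨y, ?_, x, hx, h1.symm, Sym2.eq_swap⟩
      by_contra hy
      exact h2 ⟨fun h => absurd h hx, fun h => absurd h hy⟩

theorem exists_bd {Γ : SimpleGraph V} {F : Set V} {e : Sym2 V} (he : e ∈ cut Γ F) :
    ∃ p ∈ bd Γ F, e = s(p.1, p.2) := by
  induction e using Sym2.ind with
  | _ x y => exact ⟨(x, y), mem_cut.1 he, rfl⟩

theorem close_of_clP {Γ : SimpleGraph V} {t : ℝ} {F : Set V} (h : ClP Γ t F) :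
    IsClose Γ t (cut Γ F) := by
  intro A₁ A₂ h1 h2 hd hu
  obtain ⟨e₁, he₁⟩ := h1
  obtain ⟨e₂, he₂⟩ := h2
  obtain ⟨p, hp, rfl⟩ := exists_bd (hu ▸ Or.inl he₁ : e₁ ∈ cut Γ F)
  obtain ⟨q, hq, rfl⟩ := exists_bd (hu ▸ Or.inr he₂ : e₂ ∈ cut Γ F)
  obtain ⟨a, ha, b, hb, h3, h4, h5⟩ := h (fun e => s(e.1, e.2) ∈ A₁)
    (fun e _ => by
      have : s(e.swap.1, e.swap.2) = s(e.1, e.2) := Sym2.eq_swap
      rw [this]) ⟨p, hp, he₁⟩
    ⟨q, hq, fun h => Set.disjoint_left.1 hd h he₂⟩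
  have hb2 : s(b.1, b.2) ∈ A₂ := by
    have h6 : s(b.1, b.2) ∈ A₁ ∪ A₂ := by
      rw [hu]
      exact mem_cut.2 hb
    exact h6.resolve_left h4
  exact ⟨_, h3, _, hb2, a.1, Sym2.mem_mk_left _ _, b.1, Sym2.mem_mk_left _ _, h5⟩

theorem clP_of_close {Γ : SimpleGraph V} {t : ℝ} {F : Set V} (h : IsClose Γ t (cut Γ F)) :
    ClP Γ t F := by
  rintro P hsym ⟨p, hp, hPp⟩ ⟨q, hq, hPq⟩
  have key : ∀ {x y a b : V}, (x, y) ∈ bd Γ F → s(x, y) = s(a, b) → (P (x, y) ↔ P (a, b)) := by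
    intro x y a b hxy he
    rw [Sym2.eq_iff] at he
    rcases he with ⟨rfl, rfl⟩ | ⟨rfl, rfl⟩
    · exact Iff.rfl
    · exact hsym _ hxy
  obtain ⟨e₁, ⟨x, y, h1, h2, h3⟩, e₂, ⟨z, w, h4, h5, h6⟩, a, ha, b, hb, hab⟩ :=
    h {e | ∃ x y, (x, y) ∈ bd Γ F ∧ e = s(x, y) ∧ P (x, y)}
      {e | ∃ x y, (x, y) ∈ bd Γ F ∧ e = s(x, y) ∧ ¬ P (x, y)}
      ⟨s(p.1, p.2), p.1, p.2, hp, rfl, hPp⟩ ⟨s(q.1, q.2), q.1, q.2, hq, rfl, hPq⟩
      (by
        rw [Set.disjoint_left]
        rintro e ⟨x, y, h1, h2, h3⟩ ⟨z, w, h4, h5, h6⟩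
        exact h6 ((key h1 (h2.symm.trans h5)).1 h3))
      (by
        ext e
        constructor
        · rintro (⟨x, y, h1, rfl, -⟩ | ⟨x, y, h1, rfl, -⟩)
          · exact mem_cut.2 h1
          · exact mem_cut.2 h1
        · intro he
          obtain ⟨r, hr, rfl⟩ := exists_bd he
          by_cases hP : P r
          · exact Or.inl ⟨r.1, r.2, hr, rfl, hP⟩
          · exact Or.inr ⟨r.1, r.2, hr, rfl, hP⟩)
  subst h2
  subst h5
  rw [Sym2.mem_iff] at ha hb
  have hA : ∃ r ∈ bd Γ F, P r ∧ r.1 = a := by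
    rcases ha with rfl | rfl
    · exact ⟨_, h1, h3, rfl⟩
    · exact ⟨_, bd_swap h1, (hsym _ h1).1 h3, rfl⟩
  have hB : ∃ r ∈ bd Γ F, ¬ P r ∧ r.1 = b := by
    rcases hb with rfl | rfl
    · exact ⟨_, h4, h6, rfl⟩
    · exact ⟨_, bd_swap h4, fun h => h6 ((hsym _ h4).2 h), rfl⟩
  obtain ⟨r, hr, hPr, rfl⟩ := hA
  obtain ⟨s', hs, hPs, rfl⟩ := hB
  exact ⟨r, hr, s', hs, hPr, hPs, hab⟩

theorem clP_of_vertex {Γ : SimpleGraph V} {t : ℝ} (ht : 0 ≤ t) {F : Set V}
    (h : ∀ S ⊆ ob Γ F, S.Nonempty → (ob Γ F \ S).Nonempty →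
      ∃ a ∈ S, ∃ b ∈ ob Γ F \ S, (Γ.dist a b : ℝ) ≤ t) : ClP Γ t F := by
  rintro P hsym ⟨e, he, hPe⟩ ⟨e', he', hPe'⟩
  by_contra hcon
  push Not at hcon
  have hnorm : ∀ e ∈ bd Γ F, ∃ q k, q ∉ F ∧ k ∈ F ∧ Γ.Adj q k ∧ (P e ↔ P (q, k)) := by
    rintro ⟨x, y⟩ he
    have hs := hsym _ he
    obtain ⟨hxy, hne⟩ := he
    simp only at hxy hne
    by_cases hx : x ∈ F
    · exact ⟨y, x, by tauto, hx, hxy.symm, hs⟩
    · exact ⟨x, y, hx, by tauto, hxy, Iff.rfl⟩
  have hbdo : ∀ q k, q ∉ F → k ∈ F → Γ.Adj q k → (q, k) ∈ bd Γ F := by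
    intro q k hq hk hadj
    refine ⟨hadj, ?_⟩
    simp only
    tauto
  obtain ⟨q, k, a1, a2, a3, a4⟩ := hnorm e he
  obtain ⟨q', k', b1, b2, b3, b4⟩ := hnorm e' he'
  rw [a4] at hPe
  rw [b4] at hPe'
  obtain ⟨a, ⟨haO, ka, hka, haadj, hPa⟩, b, ⟨⟨hbF, kb, hkb, hbadj⟩, hbS⟩, hab⟩ :=
    h {o | o ∈ ob Γ F ∧ ∃ k ∈ F, Γ.Adj o k ∧ P (o, k)} (fun o ho => ho.1)
      ⟨q, ⟨a1, k, a2, a3⟩, k, a2, a3, hPe⟩
      ⟨q', ⟨b1, k', b2, b3⟩, by
        rintro ⟨-, k2, c1, c2, c3⟩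
        have h5 := hcon (q', k2) (hbdo q' k2 b1 c1 c2) (q', k') (hbdo q' k' b1 b2 b3) c3 hPe'
        rw [dist_self, Nat.cast_zero] at h5
        linarith⟩
  have h6 : ¬ P (b, kb) := fun hP => hbS ⟨⟨hbF, kb, hkb, hbadj⟩, kb, hkb, hbadj, hP⟩
  have h7 := hcon (a, ka) (hbdo a ka haO.1 hka haadj) (b, kb) (hbdo b kb hbF hkb hbadj) hPa h6
  exact absurd hab (not_le.2 h7)

/-! ## Minimal cutsets are the finite boundaries of connected sets with connected complement -/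

theorem no_end {Γ : SimpleGraph V} {F : Set V} (hbd : (bd Γ F).Finite) :
    ¬ ∃ ρ : ℕ → V, IsRay Γ ρ ∧ InClosure Γ F ρ ∧ InClosure Γ Fᶜ ρ := by
  rintro ⟨ρ, -, h1, h2⟩
  obtain ⟨N1, hN1⟩ := h1 (Prod.fst '' bd Γ F) (hbd.image _)
  obtain ⟨N2, hN2⟩ := h2 (Prod.fst '' bd Γ F) (hbd.image _)
  obtain ⟨x, hx, p, hp⟩ := hN1 (max N1 N2) (le_max_left _ _)
  obtain ⟨y, hy, q, hq⟩ := hN2 (max N1 N2) (le_max_right _ _)
  obtain ⟨a, b, e1, e2, e3, e4⟩ := walk_cross (p.reverse.append q) hx hy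
  have h5 : a ∈ Prod.fst '' bd Γ F := ⟨(a, b), ⟨e1, fun h => e3 (h.1 e2)⟩, rfl⟩
  rw [Walk.mem_support_append_iff, Walk.support_reverse, List.mem_reverse] at e4
  rcases e4 with e4 | e4
  · exact hp a e4 h5
  · exact hq a e4 h5

theorem ray_of_infinite {Γ : SimpleGraph V} (hΓ : Γ.Connected) (lf : LocFin Γ) {F : Set V}
    (hbd : ¬ (bd Γ F).Finite) :
    ∃ ρ : ℕ → V, IsRay Γ ρ ∧ InClosure Γ F ρ ∧ InClosure Γ Fᶜ ρ := by
  have hinf : {x : V | x ∈ F ∧ ∃ y ∈ Fᶜ, Γ.Adj x y}.Infinite := by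
    intro hfin
    apply hbd
    have h1 : (⋃ x ∈ {x : V | x ∈ F ∧ ∃ y ∈ Fᶜ, Γ.Adj x y}, Γ.neighborSet x).Finite :=
      hfin.biUnion (fun x _ => lf x)
    refine ((hfin.prod h1).union (h1.prod hfin)).subset ?_
    rintro ⟨x, y⟩ ⟨hxy, hne⟩
    simp only at hxy hne
    by_cases hx : x ∈ F
    · have hy : y ∉ F := by tauto
      left
      exact ⟨⟨hx, y, hy, hxy⟩, Set.mem_biUnion (x := x) ⟨hx, y, hy, hxy⟩ hxy⟩
    · have hy : y ∈ F := by tauto
      right
      exact ⟨Set.mem_biUnion (x := y) ⟨hy, x, hx, hxy.symm⟩ hxy.symm, ⟨hy, x, hx, hxy.symm⟩⟩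
  obtain ⟨xs, hxs⟩ : ∃ xs : ℕ → V, Function.Injective xs ∧
      ∀ k, xs k ∈ F ∧ ∃ y ∈ Fᶜ, Γ.Adj (xs k) y :=
    ⟨fun k => (hinf.natEmbedding _ k).1, fun a b hab => (hinf.natEmbedding _).injective
      (Subtype.ext hab), fun k => (hinf.natEmbedding _ k).2⟩
  obtain ⟨hxinj, hxs⟩ := hxs
  choose hxF ys hyF hxy using hxs
  have hyfin : ∀ w, (ys ⁻¹' {w}).Finite := by
    intro w
    have h1 : ys ⁻¹' {w} ⊆ xs ⁻¹' (Γ.neighborSet w) := by
      intro k hk
      have : ys k = w := hk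
      have h2 := hxy k
      rw [this] at h2
      exact h2.symm
    exact ((lf w).preimage hxinj.injOn).subset h1
  obtain ⟨o⟩ := hΓ.nonempty
  obtain ⟨ρ, J, r1, r2, r3, r4, r5⟩ := ray_lemma hΓ lf o xs
    (fun w => (Set.finite_singleton w).preimage hxinj.injOn)
  refine ⟨ρ, ⟨r2, r1⟩, ?_, ?_⟩
  · intro K hK
    obtain ⟨N, hN⟩ := tail_avoid hΓ r5 hK
    refine ⟨N, fun m hm => ?_⟩
    obtain ⟨k, hk⟩ := (r3 m).nonempty
    obtain ⟨a1, a2, a3⟩ := hN m hm k hk
    obtain ⟨p, hp⟩ := RC.to_walk a3 a1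
    exact ⟨xs k, hxF k, p, fun z hz => hp z hz⟩
  · intro K hK
    obtain ⟨N, hN⟩ := tail_avoid hΓ r5 hK
    refine ⟨N, fun m hm => ?_⟩
    have hKf : (ys ⁻¹' K).Finite := by
      have : ys ⁻¹' K = ⋃ w ∈ K, ys ⁻¹' {w} := by
        ext x; simp
      rw [this]
      exact hK.biUnion fun w _ => hyfin w
    obtain ⟨k, hk, hkK⟩ := ((r3 m).sdiff hKf).nonempty
    obtain ⟨a1, a2, a3⟩ := hN m hm k hk
    have c3 : RC Γ Kᶜ (xs k) (ys k) := RC.single' (hxy k) a2 hkK
    obtain ⟨p, hp⟩ := RC.to_walk (RC.trans' a3 c3) a1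
    exact ⟨ys k, hyF k, p, fun z hz => hp z hz⟩

theorem cut_subset {Γ : SimpleGraph V} {F K : Set V} (h : bd Γ K ⊆ bd Γ F) :
    cut Γ K ⊆ cut Γ F := by
  intro e he
  obtain ⟨p, hp, rfl⟩ := exists_bd he
  exact mem_cut.2 (h hp)

theorem cut_edge {Γ : SimpleGraph V} {F : Set V} : cut Γ F ⊆ Γ.edgeSet := by
  rintro e ⟨x, _, y, _, h, rfl⟩
  exact h

theorem exists_of_minCut {Γ : SimpleGraph V} (hΓ : Γ.Connected) (lf : LocFin Γ)
    {C : Set (Sym2 V)} (h : IsMinCutset Γ C) :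
    ∃ F : Set V, Co Γ F ∧ Co Γ Fᶜ ∧ (bd Γ F).Finite ∧ C = cut Γ F := by
  obtain ⟨⟨hC, F, ⟨x0, hx0⟩, ⟨y0, hy0⟩, hFC, hend⟩, hmin⟩ := h
  have hfin : (bd Γ F).Finite := by
    by_contra hcon
    exact hend (ray_of_infinite hΓ lf hcon)
  obtain ⟨y, x, hyF, hxF, hyx, -, -⟩ := crossing hΓ (F := F) (le_refl (Γ.dist y0 x0))
    (fun h => hy0 (h.2 hx0))
  have hxy := hyx.symm
  set D := comp Γ F x with hD
  have hDF : D ⊆ F := comp_sub hxF
  have hyD : y ∉ D := fun h => hyF (hDF h)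
  set K := comp Γ Dᶜ y with hK
  have hKco : Co Γ K := comp_co
  have hKcco : Co Γ Kᶜ := comp_compl_co hΓ comp_co hyD
  have hKD : ∀ a b, Γ.Adj a b → a ∈ K → b ∉ K → b ∈ D ∧ a ∉ F := by
    intro a b hab ha hb
    have hbD : b ∈ D := comp_edge hyD hab ha hb
    refine ⟨hbD, ?_⟩
    intro haF
    have : a ∈ D := comp_step hxF hbD haF hab.symm
    exact comp_sub (S := Dᶜ) hyD ha this
  have hsub : bd Γ K ⊆ bd Γ F := by
    rintro ⟨a, b⟩ ⟨hab, hne⟩
    simp only at hab hne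
    refine ⟨hab, ?_⟩
    simp only
    by_cases ha : a ∈ K
    · have hb : b ∉ K := by tauto
      obtain ⟨h1, h2⟩ := hKD a b hab ha hb
      have := hDF h1
      tauto
    · have hb : b ∈ K := by tauto
      obtain ⟨h1, h2⟩ := hKD b a hab.symm hb ha
      have := hDF h1
      tauto
  have hKC : cut Γ K ⊆ C := (cut_subset hsub).trans hFC
  refine ⟨K, hKco, hKcco, hfin.subset hsub, ?_⟩
  by_contra hne
  refine hmin (cut Γ K) (lt_of_le_of_ne hKC (Ne.symm hne)) ⟨cut_edge, K, hKco.1, hKcco.1,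
    subset_rfl, no_end (hfin.subset hsub)⟩

theorem minCut_of {Γ : SimpleGraph V} {F : Set V} (h1 : Co Γ F) (h2 : Co Γ Fᶜ)
    (h3 : (bd Γ F).Finite) : IsMinCutset Γ (cut Γ F) := by
  refine ⟨⟨cut_edge, F, h1.1, h2.1, subset_rfl, no_end h3⟩, ?_⟩
  rintro C' hC' ⟨-, F1, ⟨x1, hx1⟩, ⟨y1, hy1⟩, hF1, -⟩
  have hin : ∀ v ∈ F, ∀ w ∈ F, (v ∈ F1 ↔ w ∈ F1) := by
    intro v hv w hw
    refine RC.prop (h1.2 v hv w hw) (fun z => v ∈ F1 ↔ z ∈ F1) ?_ Iff.rfl
    intro p q hpq hp hq ih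
    rw [ih]
    by_contra hne
    have h4 : s(p, q) ∈ cut Γ F := hC'.1 (hF1 (mem_cut.2 ⟨hpq, hne⟩))
    exact (mem_cut.1 h4).2 ⟨fun _ => hq, fun _ => hp⟩
  have hout : ∀ v ∈ Fᶜ, ∀ w ∈ Fᶜ, (v ∈ F1 ↔ w ∈ F1) := by
    intro v hv w hw
    refine RC.prop (h2.2 v hv w hw) (fun z => v ∈ F1 ↔ z ∈ F1) ?_ Iff.rfl
    intro p q hpq hp hq ih
    rw [ih]
    by_contra hne
    have h4 : s(p, q) ∈ cut Γ F := hC'.1 (hF1 (mem_cut.2 ⟨hpq, hne⟩))
    exact (mem_cut.1 h4).2 ⟨fun h => absurd h hp, fun h => absurd h hq⟩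
  obtain ⟨e, he, heC⟩ := Set.exists_of_ssubset hC'
  obtain ⟨x, hx, y, hy, hxy, rfl⟩ := he
  have hxy1 : (x ∈ F1 ↔ y ∈ F1) := by
    by_contra hne
    exact heC (hF1 (mem_cut.2 ⟨hxy, hne⟩))
  have hall : ∀ v, (v ∈ F1 ↔ x ∈ F1) := by
    intro v
    by_cases hv : v ∈ F
    · exact hin v hv x hx
    · exact (hout v hv y hy).trans hxy1.symm
  exact hy1 ((hall y1).2 ((hall x1).1 hx1))

/-! ## The control -/

theorem exists_g {Γ : SimpleGraph V} {Γ' : SimpleGraph V'} (hΓ : Γ.Connected)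
    (hΓ' : Γ'.Connected) (lf : LocFin Γ) {f : V → V'} {L C : ℝ} (hL : 1 ≤ L) (hC : 0 ≤ C)
    (hq : IsQI Γ Γ' f L C) :
    ∃ g : V' → V, (∀ w, (Γ'.dist w (f (g w)) : ℝ) ≤ C) ∧
      (∀ v w, Γ'.Adj v w → (Γ.dist (g v) (g w) : ℝ) ≤ L * (1 + 3 * C)) ∧
      (∀ x y, (Γ.dist x y : ℝ) ≤ L * ((Γ'.dist (f x) (f y) : ℝ) + C)) ∧
      (∀ v', (f ⁻¹' {v'}).Finite) := by
  obtain ⟨hf, hs⟩ := hq
  choose g hg using hs
  have hL0 : 0 < L := by linarith
  have hlow : ∀ x y, (Γ.dist x y : ℝ) ≤ L * ((Γ'.dist (f x) (f y) : ℝ) + C) := by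
    intro x y
    have h1 := (hf x y).1
    have h2 : (Γ.dist x y : ℝ) / L ≤ (Γ'.dist (f x) (f y) : ℝ) + C := by linarith
    rw [div_le_iff₀ hL0] at h2
    linarith
  refine ⟨g, hg, ?_, hlow, ?_⟩
  · intro v w hvw
    have h0 : (Γ'.dist (f (g v)) (f (g w)) : ℝ) ≤ 1 + 2 * C := by
      have e1 := hΓ'.dist_triangle (u := f (g v)) (v := v) (w := f (g w))
      have e2 := hΓ'.dist_triangle (u := v) (v := w) (w := f (g w))
      have e3 := Γ'.dist_comm (u := f (g v)) (v := v)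
      have e4 := dist_adj hvw
      have e5 : (Γ'.dist (f (g v)) (f (g w)) : ℝ) ≤
          (Γ'.dist v (f (g v)) : ℝ) + 1 + (Γ'.dist w (f (g w)) : ℝ) := by
        have : Γ'.dist (f (g v)) (f (g w)) ≤ Γ'.dist v (f (g v)) + 1 + Γ'.dist w (f (g w)) := by
          omega
        exact_mod_cast this
      have e6 := hg v
      have e7 := hg w
      linarith
    refine (hlow (g v) (g w)).trans ?_
    apply mul_le_mul_of_nonneg_left _ hL0.le
    linarith
  · intro v'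
    rcases Set.eq_empty_or_nonempty (f ⁻¹' {v'}) with he | ⟨x0, hx0⟩
    · rw [he]; exact Set.finite_empty
    · refine (ball_finite hΓ lf x0 ⌊L * C⌋₊).subset ?_
      intro x hx
      have e1 : f x0 = v' := hx0
      have e2 : f x = v' := hx
      have h1 := hlow x0 x
      rw [e1, e2, dist_self] at h1
      show Γ.dist x0 x ≤ _
      apply Nat.le_floor
      simpa using h1

/-- the vertex form of the transfer for a quasi-isometry -/
theorem vertex_control {Γ : SimpleGraph V} {Γ' : SimpleGraph V'} (hΓ : Γ.Connected)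
    (hΓ' : Γ'.Connected) (lf : LocFin Γ) (lf' : LocFin Γ') {f : V → V'} {L C t : ℝ} (hL : 1 ≤ L)
    (hC : 0 ≤ C) (ht : 0 ≤ t) (hq : IsQI Γ Γ' f L C) {F' : Set V'} (hF : Co Γ' F')
    (hFc : Co Γ' F'ᶜ) (hbd : (bd Γ' F').Finite)
    (hcl : ∀ K : Set V, Co Γ K → Co Γ Kᶜ → (bd Γ K).Finite → bd Γ K ⊆ bd Γ (f ⁻¹' F') →
      ClP Γ t K)
    {S : Set V'} (hS : S ⊆ ob Γ' F') (hSne : S.Nonempty) (hTne : (ob Γ' F' \ S).Nonempty) :
    ∃ a ∈ S, ∃ b ∈ ob Γ' F' \ S, (Γ'.dist a b : ℝ) ≤ L * t + addC L C := by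
  obtain ⟨g, g1, g2, g3, g4⟩ := exists_g hΓ hΓ' lf hL hC hq
  have hLL : 1 ≤ L ^ 2 := by nlinarith
  have hq1 : L * (L * (1 + 3 * C)) + C = L ^ 2 * (1 + 3 * C) + C := by ring
  have hq2 : L ≤ L ^ 2 * (1 + 3 * C) := by nlinarith [mul_nonneg (sq_nonneg L) hC]
  have hq3 : 1 ≤ L ^ 2 * (1 + 3 * C) := by linarith
  obtain ⟨R, hR⟩ : ∃ R : ℕ, R = ⌈L ^ 2 * (1 + 3 * C) + C⌉₊ := ⟨_, rfl⟩
  have hR1 : L ^ 2 * (1 + 3 * C) + C ≤ R := by rw [hR]; exact Nat.le_ceil _
  have hR2 : (R : ℝ) ≤ L ^ 2 * (1 + 3 * C) + C + 1 := by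
    rw [hR]
    exact (Nat.ceil_lt_add_one (by linarith)).le
  obtain ⟨a, ha, b, hb, hab⟩ := transferK (f := f) (g := g) (L := L) (A := C) (B := C)
    (D := L * (1 + 3 * C)) (t := t) (R := R) hΓ hΓ' lf' (by linarith) hC ht
    (fun x y => (hq.1 x y).2) g1 g2 g4 (by rw [hq1]; exact hR1) (by linarith) (by linarith)
    hF hFc hbd hcl hS hSne hTne
  refine ⟨a, ha, b, hb, hab.trans ?_⟩
  unfold addC
  nlinarith

theorem mem_pair {Γ : SimpleGraph V} {K : Set V} {e : Sym2 V} (he : e ∈ cut Γ K) {x : V}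
    (hx : x ∈ e) : ∃ x', (x, x') ∈ bd Γ K := by
  obtain ⟨p, hp, rfl⟩ := exists_bd he
  rw [Sym2.mem_iff] at hx
  rcases hx with rfl | rfl
  · exact ⟨p.2, hp⟩
  · exact ⟨p.1, bd_swap hp⟩

theorem profile {Γ : SimpleGraph V} {Γ' : SimpleGraph V'} (hΓ : Γ.Connected)
    (hΓ' : Γ'.Connected) (lf : LocFin Γ) (lf' : LocFin Γ') {f : V → V'} {L C : ℝ} (hL : 1 ≤ L)
    (hC : 0 ≤ C) (hq : IsQI Γ Γ' f L C) {n t : ℝ} (ht : 0 ≤ t)
    (h : CutProfileLe Γ (L * n + addC L C) t) : CutProfileLe Γ' n (L * t + addC L C) := by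
  intro C' hC' hdiam
  obtain ⟨F', hF, hFc, hbd, rfl⟩ := exists_of_minCut hΓ' lf' hC'
  obtain ⟨g, g1, g2, g3, g4⟩ := exists_g hΓ hΓ' lf hL hC hq
  have hL0 : 0 < L := by linarith
  have hadd : 0 ≤ addC L C := by unfold addC; positivity
  have hLt : 0 ≤ L * t := mul_nonneg hL0.le ht
  refine close_of_clP (clP_of_vertex (by linarith) fun S hS hSne hTne => ?_)
  refine vertex_control hΓ hΓ' lf lf' hL hC ht hq hF hFc hbd ?_ hS hSne hTne
  intro K hK hKc hfinK hsub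
  refine clP_of_close (h _ (minCut_of hK hKc hfinK) ?_)
  intro e₁ he₁ e₂ he₂ x hx y hy
  have key : ∀ x, (∃ x', (x, x') ∈ bd Γ K) → ∃ o k, s(o, k) ∈ cut Γ' F' ∧
      (Γ'.dist (f x) o : ℝ) ≤ L + C := by
    rintro x ⟨x', hx'⟩
    have h1 := hsub hx'
    have hne : ¬ (f x ∈ F' ↔ f x' ∈ F') := h1.2
    obtain ⟨o, k, e1, e2, e3, e4, e5⟩ := crossing hΓ' (le_refl (Γ'.dist (f x) (f x'))) hne
    refine ⟨o, k, mem_cut.2 ⟨e3, fun h => e1 (h.2 e2)⟩, ?_⟩
    have h2 := (hq.1 x x').2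
    rw [dist_adj h1.1, Nat.cast_one, mul_one] at h2
    have h3 : (Γ'.dist (f x) o : ℝ) ≤ Γ'.dist (f x) (f x') := by exact_mod_cast e4
    linarith
  obtain ⟨o₁, k₁, c1, d1⟩ := key x (mem_pair he₁ hx)
  obtain ⟨o₂, k₂, c2, d2⟩ := key y (mem_pair he₂ hy)
  have h4 := hdiam _ c1 _ c2 o₁ (Sym2.mem_mk_left _ _) o₂ (Sym2.mem_mk_left _ _)
  have e1 := hΓ'.dist_triangle (u := f x) (v := o₁) (w := f y)
  have e2 := hΓ'.dist_triangle (u := o₁) (v := o₂) (w := f y)
  have e3 := Γ'.dist_comm (u := o₂) (v := f y)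
  have h5 : (Γ'.dist (f x) (f y) : ℝ) ≤ Γ'.dist (f x) o₁ + Γ'.dist o₁ o₂ + Γ'.dist (f y) o₂ := by
    have : Γ'.dist (f x) (f y) ≤ Γ'.dist (f x) o₁ + Γ'.dist o₁ o₂ + Γ'.dist (f y) o₂ := by omega
    exact_mod_cast this
  have h6 : (Γ'.dist (f x) (f y) : ℝ) + C ≤ n + 2 * L + 3 * C := by linarith
  have h7 := (g3 x y).trans (mul_le_mul_of_nonneg_left h6 hL0.le)
  refine h7.trans ?_
  unfold addC
  have hLL : 1 ≤ L ^ 2 := by nlinarith
  have h8 : L * C ≤ L ^ 2 * C := by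
    apply mul_le_mul_of_nonneg_right _ hC
    nlinarith
  have h9 : 0 ≤ L ^ 2 * C := by positivity
  nlinarith

theorem const {Γ : SimpleGraph V} {Γ' : SimpleGraph V'} (hΓ : Γ.Connected)
    (hΓ' : Γ'.Connected) (lf : LocFin Γ) (lf' : LocFin Γ') {f : V → V'} {L C : ℝ} (hL : 1 ≤ L)
    (hC : 0 ≤ C) (hq : IsQI Γ Γ' f L C) {t : ℝ} (ht : 0 ≤ t)
    (h : CutConstLe Γ t) : CutConstLe Γ' (L * t + addC L C) := by
  intro C' hC'
  obtain ⟨F', hF, hFc, hbd, rfl⟩ := exists_of_minCut hΓ' lf' hC'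
  have hL0 : 0 < L := by linarith
  have hadd : 0 ≤ addC L C := by unfold addC; positivity
  have hLt : 0 ≤ L * t := mul_nonneg hL0.le ht
  refine close_of_clP (clP_of_vertex (by linarith) fun S hS hSne hTne => ?_)
  refine vertex_control hΓ hΓ' lf lf' hL hC ht hq hF hFc hbd ?_ hS hSne hTne
  intro K hK hKc hfinK hsub
  exact clP_of_close (h _ (minCut_of hK hKc hfinK))

theorem retract {Γ : SimpleGraph V} {Γ' : SimpleGraph V'} (hΓ : Γ.Connected)
    (hΓ' : Γ'.Connected) (lf' : LocFin Γ') {f : V → V'} {g : V' → V} {L A B D : ℝ} (hL : 0 ≤ L)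
    (hA : 0 ≤ A) (hB : 0 ≤ B)
    (h1 : ∀ x y, (Γ'.dist (f x) (f y) : ℝ) ≤ L * Γ.dist x y + A)
    (h2 : ∀ w, (Γ'.dist w (f (g w)) : ℝ) ≤ B)
    (h3 : ∀ v w, Γ'.Adj v w → (Γ.dist (g v) (g w) : ℝ) ≤ D)
    (h4 : ∀ v', (f ⁻¹' {v'}).Finite) {t : ℝ} (ht : 0 ≤ t) (h : CutConstLe Γ t) :
    CutConstLe Γ' (L * t + (2 * max (L * D) L + 3 * A + 2 * B + 4)) := by
  intro C' hC'
  obtain ⟨F', hF, hFc, hbd, rfl⟩ := exists_of_minCut hΓ' lf' hC'
  have hLt : 0 ≤ L * t := mul_nonneg hL ht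
  have hM : 0 ≤ max (L * D) L := hL.trans (le_max_right _ _)
  have hM1 : L * D ≤ max (L * D) L := le_max_left _ _
  have hM2 : L ≤ max (L * D) L := le_max_right _ _
  obtain ⟨R, hR⟩ : ∃ R : ℕ, R = ⌈max (L * D) L + A + B + 1⌉₊ := ⟨_, rfl⟩
  have hR1 : max (L * D) L + A + B + 1 ≤ R := by rw [hR]; exact Nat.le_ceil _
  have hR2 : (R : ℝ) ≤ max (L * D) L + A + B + 1 + 1 := by
    rw [hR]
    exact (Nat.ceil_lt_add_one (by linarith)).le
  refine close_of_clP (clP_of_vertex (by linarith) fun S hS hSne hTne => ?_)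
  obtain ⟨a, ha, b, hb, hab⟩ := transferK (f := f) (g := g) (L := L) (A := A) (B := B)
    (D := D) (t := t) (R := R) hΓ hΓ' lf' hL hA ht h1 h2 h3 h4 (by linarith) (by linarith)
    (by linarith) hF hFc hbd
    (fun K hK hKc hfinK _ => clP_of_close (h _ (minCut_of hK hKc hfinK))) hS hSne hTne
  exact ⟨a, ha, b, hb, hab.trans (by linarith)⟩

theorem cb_control {Γ : SimpleGraph V} {Γ' : SimpleGraph V'} (hΓ : Γ.Connected)
    (hΓ' : Γ'.Connected) (lf : LocFin Γ) (lf' : LocFin Γ') {f : V → V'} {L C : ℝ} (hL : 1 ≤ L)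
    (hC : 0 ≤ C) (hq : IsQI Γ Γ' f L C) {r : ℕ} (h : CB Γ r) :
    CB Γ' (2 * ⌊L * (2 * r + 1) + addC L C⌋₊) := by
  have hr : CBfin Γ r := (cb_iff lf r).1 h
  refine (cb_iff lf' _).2 (annulus hΓ' lf' ?_ ?_)
  · apply Nat.le_floor
    have h1 : 0 ≤ L * (2 * r + 1) := by positivity
    have h2 : 0 ≤ 2 * L ^ 2 * (1 + 3 * C) := by positivity
    push_cast
    unfold addC
    linarith
  · intro F hF hFc hfin S hS hSne hTne
    obtain ⟨a, ha, b, hb, hab⟩ := vertex_control (t := 2 * r + 1) hΓ hΓ' lf lf' hL hC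
      (by positivity) hq hF hFc hfin
      (fun K hK hKc hfinK _ => clP_of_cb hΓ hr hK hKc hfinK) hS hSne hTne
    exact ⟨a, ha, b, hb, Nat.le_floor hab⟩

/-! ## Cyclic groups: the factor is optimal -/

/-- The Cayley graph of the cyclic group of order `N` with respect to `{1, 2, …, m}`. -/
def Cyc (N m : ℕ) : SimpleGraph (Multiplicative (ZMod N)) :=
  mulCayley {x | ∃ i : ℕ, 1 ≤ i ∧ i ≤ m ∧ x = Multiplicative.ofAdd (i : ZMod N)}

section Cyclic

variable {N : ℕ}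

/-- the class of `i` -/
def el (N i : ℕ) : Multiplicative (ZMod N) := Multiplicative.ofAdd (i : ZMod N)

theorem el_mul (i j : ℕ) : el N i * el N j = el N (i + j) := by
  unfold el
  rw [← ofAdd_add]
  push_cast
  rfl

theorem el_val [NeZero N] (x : Multiplicative (ZMod N)) : x = el N (Multiplicative.toAdd x).val := by
  unfold el
  rw [ZMod.natCast_zmod_val]
  rfl

theorem val_el {i : ℕ} (hi : i < N) : (Multiplicative.toAdd (el N i)).val = i := by
  unfold el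
  rw [toAdd_ofAdd, ZMod.val_natCast, Nat.mod_eq_of_lt hi]

theorem el_N : el N N = el N 0 := by
  unfold el
  rw [ZMod.natCast_self, Nat.cast_zero]

theorem el_zero : el N 0 = 1 := by
  unfold el
  rw [Nat.cast_zero, ofAdd_zero]

theorem cyc_le_one {m i : ℕ} (hi : i ≤ m) (hc : (Cyc N m).Connected)
    (x : Multiplicative (ZMod N)) : (Cyc N m).dist x (x * el N i) ≤ 1 := by
  by_cases h : x = x * el N i
  · rw [← h, dist_self]
    omega
  · have h1 : (Cyc N m).Adj x (x * el N i) := by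
      unfold Cyc
      rw [mulCayley_adj]
      refine ⟨h, Or.inl ⟨i, ?_, hi, ?_⟩⟩
      · rcases Nat.eq_zero_or_pos i with rfl | h0
        · exact absurd (by rw [el_zero, mul_one]) h
        · exact h0
      · rw [inv_mul_cancel_left]
        rfl
    rw [dist_adj h1]

theorem closure_cyc {m : ℕ} (hm : 1 ≤ m) [NeZero N] :
    Subgroup.closure {x : Multiplicative (ZMod N) | ∃ i : ℕ, 1 ≤ i ∧ i ≤ m ∧
      x = Multiplicative.ofAdd (i : ZMod N)} = ⊤ := by
  rw [eq_top_iff]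
  intro x _
  have h1 : el N 1 ∈ Subgroup.closure {x : Multiplicative (ZMod N) | ∃ i : ℕ, 1 ≤ i ∧ i ≤ m ∧
      x = Multiplicative.ofAdd (i : ZMod N)} :=
    Subgroup.subset_closure ⟨1, le_rfl, hm, rfl⟩
  have h2 : ∀ k : ℕ, el N k = el N 1 ^ k := by
    intro k
    induction k with
    | zero => rw [el_zero, pow_zero]
    | succ k ih => rw [pow_succ, ← ih, el_mul]
  rw [el_val x, h2]
  exact Subgroup.pow_mem _ h1 _

theorem cyc_connected {m : ℕ} (hm : 1 ≤ m) [NeZero N] : (Cyc N m).Connected :=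
  cayley_connected (closure_cyc hm)

theorem cyc_lf (N m : ℕ) [NeZero N] : LocFin (Cyc N m) := fun _ => Set.toFinite _

theorem cyc_dist_mul {m : ℕ} (hm : 1 ≤ m) [NeZero N] (x : Multiplicative (ZMod N)) (j : ℕ) :
    (Cyc N m).dist x (x * el N (m * j)) ≤ j := by
  induction j with
  | zero => rw [mul_zero, el_zero, mul_one, dist_self]
  | succ j ih =>
    have h1 := (cyc_connected (N := N) hm).dist_triangle (u := x) (v := x * el N (m * j))
      (w := x * el N (m * (j + 1)))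
    have h2 := cyc_le_one (N := N) (le_refl m) (cyc_connected hm) (x * el N (m * j))
    rw [mul_assoc, el_mul] at h2
    have h3 : m * (j + 1) = m * j + m := by ring
    rw [h3] at h1 ⊢
    omega

theorem cyc_dist_le {m : ℕ} (hm : 1 ≤ m) [NeZero N] (x : Multiplicative (ZMod N)) (k : ℕ) :
    (Cyc N m).dist x (x * el N k) ≤ k / m + 1 := by
  have h1 := (cyc_connected (N := N) hm).dist_triangle (u := x) (v := x * el N (m * (k / m)))
      (w := x * el N k)
  have h2 := cyc_dist_mul (N := N) hm x (k / m)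
  have h3 := cyc_le_one (N := N) (m := m) (i := k % m) (Nat.mod_lt _ (by omega)).le
    (cyc_connected hm) (x * el N (m * (k / m)))
  rw [mul_assoc, el_mul, Nat.div_add_mod] at h3
  omega

theorem cyc_diam {m M : ℕ} (hm : 1 ≤ m) (hM : 1 ≤ M) (x y : Multiplicative (ZMod (2 * M))) :
    (Cyc (2 * M) m).dist x y ≤ M / m + 1 := by
  have : NeZero (2 * M) := ⟨by omega⟩
  obtain ⟨k, hk⟩ : ∃ k, k = (Multiplicative.toAdd (x⁻¹ * y)).val := ⟨_, rfl⟩
  have hk2 : k < 2 * M := by rw [hk]; exact ZMod.val_lt _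
  have h1 : y = x * el (2 * M) k := by
    rw [hk, ← el_val, mul_inv_cancel_left]
  have h2 : x = y * el (2 * M) (2 * M - k) := by
    rw [h1, mul_assoc, el_mul, Nat.add_sub_cancel' hk2.le, el_N, el_zero, mul_one]
  by_cases hkM : k ≤ M
  · have h3 := cyc_dist_le (N := 2 * M) hm x k
    rw [← h1] at h3
    have := Nat.div_le_div_right (c := m) hkM
    omega
  · have h3 := cyc_dist_le (N := 2 * M) hm y (2 * M - k)
    rw [← h2, (Cyc (2 * M) m).dist_comm] at h3
    have := Nat.div_le_div_right (c := m) (show 2 * M - k ≤ M by omega)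
    omega

/-- the distance from the neutral element in the cycle -/
def phi (x : Multiplicative (ZMod N)) : ℤ :=
  min ((Multiplicative.toAdd x).val : ℤ) (N - (Multiplicative.toAdd x).val)

theorem cyc_adj {N : ℕ} {x y : Multiplicative (ZMod N)} (h : (Cyc N 1).Adj x y) :
    y = x * el N 1 ∨ x = y * el N 1 := by
  unfold Cyc at h
  rw [mulCayley_adj] at h
  rcases h.2 with ⟨i, h1, h2, h3⟩ | ⟨i, h1, h2, h3⟩
  · left
    have : i = 1 := by omega
    subst this
    rw [← mul_inv_cancel_left x y, h3]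
    rfl
  · right
    have : i = 1 := by omega
    subst this
    rw [← mul_inv_cancel_left y x, h3]
    rfl

theorem val_succ (hN : 2 ≤ N) (x : Multiplicative (ZMod N)) :
    (Multiplicative.toAdd (x * el N 1)).val = ((Multiplicative.toAdd x).val + 1) % N := by
  have : NeZero N := ⟨by omega⟩
  have h1 : Multiplicative.toAdd (x * el N 1) = Multiplicative.toAdd x + 1 := by
    unfold el
    rw [toAdd_mul, toAdd_ofAdd, Nat.cast_one]
  rw [h1, ZMod.val_add, ZMod.val_one'' (by omega)]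

theorem phi_step (hN : 2 ≤ N) (x : Multiplicative (ZMod N)) :
    |phi x - phi (x * el N 1)| ≤ 1 := by
  have : NeZero N := ⟨by omega⟩
  have h1 := val_succ hN x
  have h2 : (Multiplicative.toAdd x).val < N := ZMod.val_lt _
  unfold phi
  rw [h1]
  by_cases h3 : (Multiplicative.toAdd x).val + 1 < N
  · rw [Nat.mod_eq_of_lt h3, abs_le]
    push_cast
    omega
  · have h4 : (Multiplicative.toAdd x).val + 1 = N := by omega
    rw [h4, Nat.mod_self, abs_le]
    push_cast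
    omega

theorem phi_dist (hN : 2 ≤ N) (x y : Multiplicative (ZMod N)) :
    phi y - phi x ≤ (Cyc N 1).dist x y := by
  have : NeZero N := ⟨by omega⟩
  have key : ∀ {x y : Multiplicative (ZMod N)} (p : (Cyc N 1).Walk x y),
      phi y - phi x ≤ p.length := by
    intro x y p
    induction p with
    | nil => simp
    | @cons a b d hadj p ih =>
      rw [Walk.length_cons]
      push_cast
      have h1 : |phi b - phi a| ≤ 1 := by
        rcases cyc_adj hadj with rfl | rfl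
        · rw [abs_sub_comm]
          exact phi_step hN a
        · exact phi_step hN b
      rw [abs_le] at h1
      omega
  obtain ⟨p, hp⟩ := (cyc_connected (N := N) le_rfl).exists_walk_length_eq_dist x y
  rw [← hp]
  exact key p

/-- the arc -/
def arc (M : ℕ) : Set (Multiplicative (ZMod (2 * M))) :=
  {x | 1 ≤ (Multiplicative.toAdd x).val ∧ (Multiplicative.toAdd x).val ≤ M}

theorem cyc_adj_el {N i : ℕ} (hN : 2 ≤ N) : (Cyc N 1).Adj (el N i) (el N (i + 1)) := by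
  have h1 : (Cyc N 1).Adj (el N i) (el N i * el N 1) := by
    unfold Cyc
    rw [mulCayley_adj]
    refine ⟨?_, Or.inl ⟨1, le_rfl, le_rfl, ?_⟩⟩
    · intro h
      have h2 : el N 1 = 1 := by
        have h3 : el N i * 1 = el N i * el N 1 := by rw [mul_one]; exact h
        exact (mul_left_cancel h3).symm
      have h4 := val_el (N := N) (i := 1) (by omega)
      rw [h2, toAdd_one, ZMod.val_zero] at h4
      omega
    · rw [inv_mul_cancel_left]
      rfl
  rwa [el_mul] at h1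

theorem arc_co {M : ℕ} (hM : 2 ≤ M) : Co (Cyc (2 * M) 1) (arc M) := by
  have : NeZero (2 * M) := ⟨by omega⟩
  have hmem : ∀ i, 1 ≤ i → i ≤ M → el (2 * M) i ∈ arc M := by
    intro i h1 h2
    show 1 ≤ (Multiplicative.toAdd (el (2 * M) i)).val ∧
      (Multiplicative.toAdd (el (2 * M) i)).val ≤ M
    rw [val_el (by omega)]
    exact ⟨h1, h2⟩
  have key : ∀ j, j + 1 ≤ M → RC (Cyc (2 * M) 1) (arc M) (el (2 * M) 1) (el (2 * M) (j + 1)) := by
    intro j
    induction j with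
    | zero => intro _; exact RC.rfl'
    | succ j ih =>
      intro h
      exact RC.trans' (ih (by omega)) (RC.single' (cyc_adj_el (by omega))
        (hmem _ (by omega) (by omega)) (hmem _ (by omega) h))
  have key2 : ∀ x ∈ arc M, RC (Cyc (2 * M) 1) (arc M) (el (2 * M) 1) x := by
    rintro x ⟨h1, h2⟩
    rw [el_val x]
    have h3 := key ((Multiplicative.toAdd x).val - 1) (by omega)
    rwa [Nat.sub_add_cancel h1] at h3
  exact ⟨⟨el (2 * M) 1, hmem 1 le_rfl (by omega)⟩, fun x hx y hy =>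
    RC.trans' (key2 x hx).symm' (key2 y hy)⟩

theorem arc_compl_co {M : ℕ} (hM : 2 ≤ M) : Co (Cyc (2 * M) 1) (arc M)ᶜ := by
  have : NeZero (2 * M) := ⟨by omega⟩
  have hmem : ∀ i, M + 1 ≤ i → i ≤ 2 * M → el (2 * M) i ∈ (arc M)ᶜ := by
    intro i h1 h2
    rcases Nat.lt_or_eq_of_le h2 with h3 | rfl
    · rintro ⟨-, h4⟩
      rw [val_el h3] at h4
      omega
    · rintro ⟨h4, -⟩
      rw [el_N, val_el (by omega)] at h4
      omega
  have key : ∀ j, M + 1 + j ≤ 2 * M →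
      RC (Cyc (2 * M) 1) (arc M)ᶜ (el (2 * M) (M + 1)) (el (2 * M) (M + 1 + j)) := by
    intro j
    induction j with
    | zero => intro _; exact RC.rfl'
    | succ j ih =>
      intro h
      exact RC.trans' (ih (by omega)) (RC.single' (cyc_adj_el (by omega))
        (hmem _ (by omega) (by omega)) (hmem _ (by omega) h))
  have key2 : ∀ x ∈ (arc M)ᶜ, RC (Cyc (2 * M) 1) (arc M)ᶜ (el (2 * M) (M + 1)) x := by
    intro x hx
    have h2 : (Multiplicative.toAdd x).val < 2 * M := ZMod.val_lt _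
    rcases Nat.eq_zero_or_pos (Multiplicative.toAdd x).val with h0 | h0
    · rw [el_val x, h0, ← el_N]
      have h3 := key (M - 1) (by omega)
      have h4 : M + 1 + (M - 1) = 2 * M := by omega
      rwa [h4] at h3
    · have h1 : M < (Multiplicative.toAdd x).val := by
        by_contra hcon
        exact hx ⟨h0, by omega⟩
      rw [el_val x]
      have h3 := key ((Multiplicative.toAdd x).val - (M + 1)) (by omega)
      rwa [Nat.add_sub_cancel' h1] at h3
  exact ⟨⟨el (2 * M) (M + 1), hmem _ le_rfl (by omega)⟩, fun x hx y hy =>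
    RC.trans' (key2 x hx).symm' (key2 y hy)⟩

theorem arc_edges {M : ℕ} (hM : 2 ≤ M) {e : Sym2 (Multiplicative (ZMod (2 * M)))}
    (he : e ∈ cut (Cyc (2 * M) 1) (arc M)) :
    e = s(el (2 * M) 0, el (2 * M) 1) ∨ ∀ x ∈ e, (M : ℤ) - 1 ≤ phi x := by
  have : NeZero (2 * M) := ⟨by omega⟩
  obtain ⟨x, hx, y, hy, hxy, rfl⟩ := he
  have hx' : 1 ≤ (Multiplicative.toAdd x).val ∧ (Multiplicative.toAdd x).val ≤ M := hx
  have hy' : ¬ (1 ≤ (Multiplicative.toAdd y).val ∧ (Multiplicative.toAdd y).val ≤ M) := hy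
  have hy2 : (Multiplicative.toAdd y).val < 2 * M := ZMod.val_lt _
  rcases cyc_adj hxy with h | h
  · right
    have h1 := val_succ (N := 2 * M) (by omega) x
    rw [← h, Nat.mod_eq_of_lt (by omega)] at h1
    have h2 : (Multiplicative.toAdd x).val = M := by omega
    intro z hz
    rw [Sym2.mem_iff] at hz
    rcases hz with rfl | rfl
    · unfold phi
      rw [h2]
      push_cast
      omega
    · unfold phi
      rw [h1, h2]
      push_cast
      omega
  · left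
    have h1 := val_succ (N := 2 * M) (by omega) y
    rw [← h] at h1
    have h3 : (Multiplicative.toAdd y).val = 0 := by
      by_contra h0
      have h4 : M < (Multiplicative.toAdd y).val := by omega
      rcases Nat.lt_or_ge ((Multiplicative.toAdd y).val + 1) (2 * M) with h5 | h5
      · rw [Nat.mod_eq_of_lt h5] at h1
        omega
      · have h6 : (Multiplicative.toAdd y).val + 1 = 2 * M := by omega
        rw [h6, Nat.mod_self] at h1
        omega
    have h4 : (Multiplicative.toAdd x).val = 1 := by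
      rw [h1, h3, Nat.mod_eq_of_lt (by omega)]
    have h5 : x = el (2 * M) 1 := by rw [el_val x, h4]
    have h6 : y = el (2 * M) 0 := by rw [el_val y, h3]
    rw [h5, h6]
    exact Sym2.eq_swap

theorem not_close {M : ℕ} (hM : 3 ≤ M) {t : ℝ} (ht : t < (M : ℝ) - 2) :
    ¬ CutConstLe (Cyc (2 * M) 1) t := by
  have : NeZero (2 * M) := ⟨by omega⟩
  intro h
  have h1 := h _ (minCut_of (arc_co (by omega)) (arc_compl_co (by omega)) (Set.toFinite _))
  have he1 : s(el (2 * M) 0, el (2 * M) 1) ∈ cut (Cyc (2 * M) 1) (arc M) := by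
    rw [mem_cut]
    refine ⟨cyc_adj_el (by omega), ?_⟩
    intro h2
    have h3 : el (2 * M) 1 ∈ arc M := by
      show 1 ≤ (Multiplicative.toAdd (el (2 * M) 1)).val ∧
        (Multiplicative.toAdd (el (2 * M) 1)).val ≤ M
      rw [val_el (by omega)]
      omega
    have h4 := (h2.2 h3).1
    rw [val_el (by omega)] at h4
    omega
  have he2 : s(el (2 * M) M, el (2 * M) (M + 1)) ∈ cut (Cyc (2 * M) 1) (arc M) := by
    rw [mem_cut]
    refine ⟨cyc_adj_el (by omega), ?_⟩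
    intro h2
    have h3 : el (2 * M) M ∈ arc M := by
      show 1 ≤ (Multiplicative.toAdd (el (2 * M) M)).val ∧
        (Multiplicative.toAdd (el (2 * M) M)).val ≤ M
      rw [val_el (by omega)]
      omega
    have h4 := (h2.1 h3).2
    rw [val_el (by omega)] at h4
    omega
  have hne : s(el (2 * M) M, el (2 * M) (M + 1)) ≠ s(el (2 * M) 0, el (2 * M) 1) := by
    intro h2
    have h3 : el (2 * M) M ∈ s(el (2 * M) 0, el (2 * M) 1) := by
      rw [← h2]
      exact Sym2.mem_mk_left _ _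
    rw [Sym2.mem_iff] at h3
    rcases h3 with h3 | h3
    · have h4 : (Multiplicative.toAdd (el (2 * M) M)).val =
          (Multiplicative.toAdd (el (2 * M) 0)).val := by rw [h3]
      rw [val_el (by omega), val_el (by omega)] at h4
      omega
    · have h4 : (Multiplicative.toAdd (el (2 * M) M)).val =
          (Multiplicative.toAdd (el (2 * M) 1)).val := by rw [h3]
      rw [val_el (by omega), val_el (by omega)] at h4
      omega
  obtain ⟨e₁, h3, e₂, ⟨h4, h4'⟩, x, hx, y, hy, hd⟩ := h1 {s(el (2 * M) 0, el (2 * M) 1)}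
    (cut (Cyc (2 * M) 1) (arc M) \ {s(el (2 * M) 0, el (2 * M) 1)}) ⟨_, rfl⟩
    ⟨_, he2, hne⟩ Set.disjoint_sdiff_right
    (by rw [Set.union_sdiff_self, Set.union_eq_right]; rintro e rfl; exact he1)
  rw [Set.mem_singleton_iff] at h3
  subst h3
  have hy2 : (M : ℤ) - 1 ≤ phi y := by
    rcases arc_edges (by omega) h4 with h5 | h5
    · exact absurd h5 h4'
    · exact h5 y hy
  have hx2 : phi x ≤ 1 := by
    rw [Sym2.mem_iff] at hx
    rcases hx with rfl | rfl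
    · unfold phi
      rw [val_el (by omega)]
      push_cast
      omega
    · unfold phi
      rw [val_el (by omega)]
      push_cast
      omega
  have h5 := phi_dist (N := 2 * M) (by omega) x y
  have h6 : (M : ℤ) - 2 ≤ (Cyc (2 * M) 1).dist x y := by omega
  have h7 : (M : ℝ) - 2 ≤ (Cyc (2 * M) 1).dist x y := by exact_mod_cast h6
  linarith

theorem close_of_diam {Γ : SimpleGraph V} {t : ℝ} (h : ∀ x y, (Γ.dist x y : ℝ) ≤ t) :
    CutConstLe Γ t := by
  rintro C - A₁ A₂ ⟨e₁, h1⟩ ⟨e₂, h2⟩ - -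
  obtain ⟨x, hx⟩ : ∃ x, x ∈ e₁ := by
    induction e₁ using Sym2.ind with
    | _ a b => exact ⟨a, Sym2.mem_mk_left _ _⟩
  obtain ⟨y, hy⟩ : ∃ y, y ∈ e₂ := by
    induction e₂ using Sym2.ind with
    | _ a b => exact ⟨a, Sym2.mem_mk_left _ _⟩
  exact ⟨e₁, h1, e₂, h2, x, hx, y, hy, h x y⟩

theorem cyc_dist_one {m : ℕ} (hm : 1 ≤ m) [NeZero N] (x y : Multiplicative (ZMod N)) :
    (Cyc N m).dist x y ≤ (Cyc N 1).dist x y ∧
      (Cyc N 1).dist x y ≤ m * (Cyc N m).dist x y := by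
  constructor
  · have h1 := dist_map_le (f := id) (c := 1) (cyc_connected (N := N) le_rfl)
      (cyc_connected (N := N) hm) (fun x y hxy => by
        rcases cyc_adj hxy with rfl | rfl
        · exact cyc_le_one hm (cyc_connected hm) x
        · rw [dist_comm]
          exact cyc_le_one hm (cyc_connected hm) y) x y
    simpa using h1
  · refine dist_map_le (f := id) (c := m) (cyc_connected (N := N) hm)
      (cyc_connected (N := N) le_rfl) (fun x y hxy => ?_) x y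
    have key : ∀ (x : Multiplicative (ZMod N)) (i : ℕ), (Cyc N 1).dist x (x * el N i) ≤ i := by
      intro x i
      have := cyc_dist_mul (N := N) (le_refl 1) x i
      rwa [one_mul] at this
    unfold Cyc at hxy
    rw [mulCayley_adj] at hxy
    rcases hxy.2 with ⟨i, h1, h2, h3⟩ | ⟨i, h1, h2, h3⟩
    · have h4 : y = x * el N i := by
        rw [← mul_inv_cancel_left x y, h3]
        rfl
      rw [h4]
      exact (key x i).trans h2
    · have h4 : x = y * el N i := by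
        rw [← mul_inv_cancel_left y x, h3]
        rfl
      rw [h4, dist_comm]
      exact (key y i).trans h2

end Cyclic

theorem optimal (m : ℕ) (hm : 1 ≤ m) (c K : ℝ) (hc : c < m) :
    ∃ (N : ℕ) (t : ℝ), 1 ≤ N ∧ 0 ≤ t ∧
      (∀ x y, (Cyc N m).dist x y ≤ (Cyc N 1).dist x y ∧
        (Cyc N 1).dist x y ≤ m * (Cyc N m).dist x y) ∧
      CutConstLe (Cyc N m) t ∧ ¬ CutConstLe (Cyc N 1) (c * t + K) := by
  have hm0 : (0 : ℝ) < m := by exact_mod_cast hm
  have h1 : 0 < 1 - c / m := by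
    rw [sub_pos, div_lt_one hm0]
    exact hc
  obtain ⟨M, hM⟩ := exists_nat_gt (max 3 ((2 + c + K) / (1 - c / m)))
  have hM3 : (3 : ℝ) < M := lt_of_le_of_lt (le_max_left _ _) hM
  have hM3' : 3 < M := by exact_mod_cast hM3
  have hM2 : (2 + c + K) / (1 - c / m) < M := lt_of_le_of_lt (le_max_right _ _) hM
  rw [div_lt_iff₀ h1] at hM2
  have : NeZero (2 * M) := ⟨by omega⟩
  refine ⟨2 * M, (M : ℝ) / m + 1, by omega, by positivity,
    fun x y => cyc_dist_one hm x y, close_of_diam fun x y => ?_, not_close hM3'.le ?_⟩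
  · have h2 := cyc_diam (m := m) (M := M) hm (by omega) x y
    have h3 : ((Cyc (2 * M) m).dist x y : ℝ) ≤ ((M / m : ℕ) : ℝ) + 1 := by exact_mod_cast h2
    have h4 : ((M / m : ℕ) : ℝ) ≤ (M : ℝ) / m := Nat.cast_div_le
    linarith
  · have h5 : c * ((M : ℝ) / m + 1) = M * (c / m) + c := by
      field_simp
    rw [h5]
    nlinarith

/-! ## The theorem -/

theorem word_control {G : Type u} [Group G] {S T : Set G} (hT' : Subgroup.closure T = ⊤)
    {lam : ℕ} (h : ∀ s ∈ S, (mulCayley T).dist 1 s ≤ lam) :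
    ∀ x y, (mulCayley S).Adj x y → (mulCayley T).dist x y ≤ lam := by
  have key : ∀ x y : G, x⁻¹ * y ∈ S → (mulCayley T).dist x y ≤ lam := by
    intro x y hxy
    have h1 := QIInvariance.cayley_dist_mul hT' x 1 (x⁻¹ * y)
    simp only [mul_one, mul_inv_cancel_left] at h1
    exact h1.trans (h _ hxy)
  intro x y hxy
  rw [mulCayley_adj] at hxy
  rcases hxy.2 with h | h
  · exact key x y h
  · rw [SimpleGraph.dist_comm]; exact key y x h

/-- **Theorem.** Let `Γ` and `Γ'` be connected locally finite graphs.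
(1) Scale by scale: if `f` is a quasi-isometry with constants `(L, C)` and all minimal cutsets of
`Γ` of diameter at most `L n + K` are `t`-close, then all minimal cutsets of `Γ'` of diameter at
most `n` are `(L t + K)`-close, `K = 2 L² (1 + 3 C) + 3 C + 2`.
In particular `C_Γ' ≤ L C_Γ + K`, and if `Γ` has `CB_r` then `Γ'` has `CB_s` with
`s = 2 ⌊L (2 r + 1) + K⌋`.
(2) Cayley graphs: explicit control for a change of the generating set, and invariance of having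
connected boundaries under (a) change of the generating set, (b) bi-Lipschitz equivalence and
(c) quasi-isometry.
(3) The factor `L` is optimal, even for a change of the generating set of a finite cyclic group. -/
theorem result :
    (∀ (V : Type u) (V' : Type v) (Γ : SimpleGraph V) (Γ' : SimpleGraph V'),
      Γ.Connected → Γ'.Connected → LocFin Γ → LocFin Γ' →
      ∀ (f : V → V') (L C : ℝ), 1 ≤ L → 0 ≤ C → IsQI Γ Γ' f L C →
        (∀ n t : ℝ, 0 ≤ t → CutProfileLe Γ (L * n + addC L C) t →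
          CutProfileLe Γ' n (L * t + addC L C)) ∧
        (∀ t : ℝ, 0 ≤ t → CutConstLe Γ t → CutConstLe Γ' (L * t + addC L C)) ∧
        (∀ r : ℕ, CB Γ r → CB Γ' (2 * ⌊L * (2 * r + 1) + addC L C⌋₊))) ∧
    (∀ (G : Type u) [Group G] (S T : Set G), S.Finite → T.Finite →
      Subgroup.closure S = ⊤ → Subgroup.closure T = ⊤ →
        (∀ lam mu : ℕ, (∀ s ∈ S, (mulCayley T).dist 1 s ≤ lam) →
          (∀ s ∈ T, (mulCayley S).dist 1 s ≤ mu) → ∀ t : ℝ, 0 ≤ t →
          CutConstLe (mulCayley S) t →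
          CutConstLe (mulCayley T) (lam * t + (2 * (lam * max mu 1 : ℕ) + 4))) ∧
        (HasCB (mulCayley S) → HasCB (mulCayley T))) ∧
    (∀ (G : Type u) (H : Type v) [Group G] [Group H] (S : Set G) (T : Set H),
      S.Finite → T.Finite → Subgroup.closure S = ⊤ → Subgroup.closure T = ⊤ →
      ∀ (f : G ≃ H) (L : ℝ), 1 ≤ L →
        (∀ x y, ((mulCayley S).dist x y : ℝ) / L ≤ ((mulCayley T).dist (f x) (f y) : ℝ) ∧
          ((mulCayley T).dist (f x) (f y) : ℝ) ≤ L * ((mulCayley S).dist x y : ℝ)) →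
        HasCB (mulCayley S) → HasCB (mulCayley T)) ∧
    (∀ (G : Type u) (H : Type v) [Group G] [Group H] (S : Set G) (T : Set H),
      S.Finite → T.Finite → Subgroup.closure S = ⊤ → Subgroup.closure T = ⊤ →
      ∀ (f : G → H) (L C : ℝ), 1 ≤ L → 0 ≤ C → IsQI (mulCayley S) (mulCayley T) f L C →
        HasCB (mulCayley S) → HasCB (mulCayley T)) ∧
    (∀ m : ℕ, 1 ≤ m → ∀ c K : ℝ, c < m → ∃ (N : ℕ) (t : ℝ), 1 ≤ N ∧ 0 ≤ t ∧
      (∀ x y, (Cyc N m).dist x y ≤ (Cyc N 1).dist x y ∧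
        (Cyc N 1).dist x y ≤ m * (Cyc N m).dist x y) ∧
      CutConstLe (Cyc N m) t ∧ ¬ CutConstLe (Cyc N 1) (c * t + K)) := by
  refine ⟨?_, ?_, ?_, ?_, optimal⟩
  · intro V V' Γ Γ' hΓ hΓ' lf lf' f L C hL hC hq
    exact ⟨fun n t ht h => profile hΓ hΓ' lf lf' hL hC hq ht h,
      fun t ht h => const hΓ hΓ' lf lf' hL hC hq ht h,
      fun r h => cb_control hΓ hΓ' lf lf' hL hC hq h⟩
  · intro G _ S T hS hT hS' hT'
    refine ⟨fun lam mu h1 h2 t ht h => ?_, ?_⟩
    · have h3 := word_control hT' h1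
      have h4 := word_control hS' h2
      have h5 := retract (f := id) (g := id) (L := lam) (A := 0) (B := 0) (D := mu)
        (cayley_connected hS') (cayley_connected hT') (cayley_lf hT) (Nat.cast_nonneg _) le_rfl
        le_rfl (fun x y => by
          have := dist_map_le (f := id) (cayley_connected hS') (cayley_connected hT') h3 x y
          rw [add_zero]
          exact_mod_cast this)
        (fun w => by simp) (fun v w hvw => by
          have := h4 v w hvw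
          exact_mod_cast this) (fun v' => by simp) ht h
      have h6 : (lam : ℝ) * t + (2 * max ((lam : ℝ) * mu) lam + 3 * 0 + 2 * 0 + 4) =
          lam * t + (2 * ((lam * max mu 1 : ℕ) : ℝ) + 4) := by
        push_cast
        rw [mul_max_of_nonneg _ _ (Nat.cast_nonneg _), mul_one]
        ring
      rwa [h6] at h5
    · rintro ⟨r, hr⟩
      obtain ⟨c1, hc1⟩ := cayley_change hS hT'
      obtain ⟨c2, hc2⟩ := cayley_change hT hS'
      have hc10 : (0 : ℝ) ≤ c1 := Nat.cast_nonneg _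
      have hc20 : (0 : ℝ) ≤ c2 := Nat.cast_nonneg _
      refine ⟨_, cb_control (L := c1 + c2 + 1) (C := 0) (cayley_connected hS')
        (cayley_connected hT') (cayley_lf hS) (cayley_lf hT) (by linarith) le_rfl (f := id)
        ⟨fun x y => ?_, fun w => ⟨w, by simp⟩⟩ hr⟩
      have h1 := dist_map_le (f := id) (cayley_connected hS') (cayley_connected hT') hc1 x y
      have h2 := dist_map_le (f := id) (cayley_connected hT') (cayley_connected hS') hc2 x y
      have h1' : ((mulCayley T).dist x y : ℝ) ≤ c1 * (mulCayley S).dist x y := by exact_mod_cast h1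
      have h2' : ((mulCayley S).dist x y : ℝ) ≤ c2 * (mulCayley T).dist x y := by exact_mod_cast h2
      have h3 : (0 : ℝ) ≤ (mulCayley S).dist x y := Nat.cast_nonneg _
      have h4 : (0 : ℝ) ≤ (mulCayley T).dist x y := Nat.cast_nonneg _
      show ((mulCayley S).dist x y : ℝ) / _ - 0 ≤ ((mulCayley T).dist x y : ℝ) ∧
        ((mulCayley T).dist x y : ℝ) ≤ _ * ((mulCayley S).dist x y : ℝ) + 0
      constructor
      · rw [sub_zero, div_le_iff₀ (by linarith)]
        nlinarith [mul_nonneg hc10 h4]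
      · nlinarith [mul_nonneg hc20 h3]
  · intro G H _ _ S T hS hT hS' hT' f L hL hf
    rintro ⟨r, hr⟩
    refine ⟨_, cb_control (L := L) (C := 0) (cayley_connected hS') (cayley_connected hT')
      (cayley_lf hS) (cayley_lf hT) hL le_rfl (f := f) ⟨fun x y => ?_, fun w => ?_⟩ hr⟩
    · have := hf x y
      constructor
      · linarith [this.1]
      · linarith [this.2]
    · exact ⟨f.symm w, by simp⟩
  · intro G H _ _ S T hS hT hS' hT' f L C hL hC hq
    rintro ⟨r, hr⟩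
    exact ⟨_, cb_control (cayley_connected hS') (cayley_connected hT')
      (cayley_lf hS) (cayley_lf hT) hL hC hq hr⟩

end Pool.Agent.Results.MP_40378c_al.LinearControl
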